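import Pool.Agent.P.MP_cc10d1_gt.R.Env

/-! The mean number of colourings of a random closed braid, conditioned on a finite type
invariant. -/

set_option autoImplicit false

namespace Pool.Agent.P.MP_cc10d1_gt.Old.MeanValue

open Pool.Agent.P.MP_cc10d1_gt Pool.Agent.P.MP_cc10d1_gt.R Filter Topology

universe u

theorem meanValue (X : Type) [Quandle X] [Finite X] : ∃ n0 : ℕ, ∀ n, n0 ≤ n →
    ∀ (A : Type u) [AddCommGroup A] (v : Knot → A) (S : Set A), Vassiliev v →
      (∃ (w : Word n) (h : IsKnot w), v (Knot.mk w h) ∈ S) →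
      Tendsto (fun l => mean n (n + 2 * l) (v ⁻¹' S) fun K => (hcol X K : ℝ)) atTop
        (𝓝 (Nat.card (Σ Y : CS X, commutator (Rack.EnvelGroup (Sub Y))) : ℝ)) := by
  obtain ⟨n0, h⟩ := lim_all X
  refine ⟨n0, fun n hn A _ v S hv hS => ?_⟩
  refine Tendsto.congr (fun l => ?_) (h n hn _ (ev_of hv hS))
  exact (mean_eq _ _ _ _ fun w hw => by rw [hcol_eq]).symm

end Pool.Agent.P.MP_cc10d1_gt.Old.MeanValue
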